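import Pool.Agent.Lib.MP_47effe_an.B.Fin

/-!
# QWEP of crossed products: Bernoulli shifts of hyperlinear groups
-/

namespace Pool.Agent.Results.MP_47effe_an.BernoulliShift

open QWEP

theorem result (A : Type) [CStarAlgebra A] (τ : A →ₗ[ℂ] ℂ) (hτ : TracialState τ) (G J : Type) [Group G]
    (α : G →* (A ≃⋆ₐ[ℂ] A)) (hα : ∀ g x, τ (α g x) = τ x) (e : J × Bool → A) (he : Bernoulli α e)
    (hd : ∀ (y : A) (ε : ℝ), 0 < ε →
      ∃ y' ∈ Algebra.adjoin ℂ (Set.range fun p : G × (J × Bool) => α p.1 (e p.2)), n2 τ (y - y') ≤ ε) :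
    Embeddable α τ ↔ Hyperlinear G :=
  bernoulli_iff hτ hα he hd

end Pool.Agent.Results.MP_47effe_an.BernoulliShift
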