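import Pool.Agent.Lib.MP_47effe_an.Main
import Pool.Agent.Lib.MP_47effe_an.Unif

/-!
# QWEP of crossed products: co-amenable subgroups which act almost by inner automorphisms
-/

namespace Pool.Agent.Results.MP_47effe_an.LimitActions

open QWEP

theorem result (A : Type) [CStarAlgebra A] (τ : A →ₗ[ℂ] ℂ) (hτ : TracialState τ)
    (hZ : ∀ z : A, (∀ x, z * x = x * z) → ∃ c : ℂ, z = c • (1 : A)) (hA : Emb star τ fun x : A => ‖x‖)
    (G : Type) [Group G] (α : G →* (A ≃⋆ₐ[ℂ] A)) (hα : ∀ g x, τ (α g x) = τ x)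
    (h : ∀ (D : Finset A) (ε : ℝ), 0 < ε → ∃ H : Subgroup G, Coamenable H ∧ ∀ (E : Finset H) (T : Finset G),
      ∃ (β : H →* (A ≃⋆ₐ[ℂ] A)) (K : Subgroup H), (∀ g x, τ (β g x) = τ x) ∧ Coamenable K ∧
        (∀ k : K, ∃ v ∈ unitary A, ∀ x, β k x = v * x * star v) ∧
          ∀ k ∈ E, ∀ g ∈ T, ∀ x ∈ D, n2 τ (α k (α g x) - β k (α g x)) ≤ ε) : Embeddable α τ ↔ Hyperlinear G := by
  have h01 : (1 : A) ≠ 0 := by
    intro h1
    have h2 := hτ.one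
    rw [h1, map_zero] at h2
    exact zero_ne_one h2
  rw [embeddable_iff hτ.one h01]
  refine ⟨fun h2 => h2.1, fun h2 => ⟨h2, cov_of_unif hτ hα fun D ε hε => ?_⟩⟩
  obtain ⟨H, hH, h⟩ := h D ε hε
  refine ⟨H, hH, fun E T => ?_⟩
  obtain ⟨β, K, h3, h4, h5, h6⟩ := h E T
  exact ⟨β, h3, cov_of_restrict (L := PUnit) (γ := 1) hτ.one h01 hZ (1 : K →* PUnit) h3 h4 h5 (cov_unit hA 1), h6⟩

end Pool.Agent.Results.MP_47effe_an.LimitActions
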