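import Pool.Agent.Lib.MP_47effe_an.Main

/-!
# QWEP of crossed products: the classes of the automorphisms modulo inner automorphisms
-/

namespace Pool.Agent.Results.MP_47effe_an.OuterClass

open QWEP

theorem result (A : Type) [CStarAlgebra A] (τ : A →ₗ[ℂ] ℂ) (hτ : τ 1 = 1)
    (hZ : ∀ z : A, (∀ x, z * x = x * z) → ∃ c : ℂ, z = c • (1 : A)) (G L : Type) [Group G] [Group L]
    (α : G →* (A ≃⋆ₐ[ℂ] A)) (hα : ∀ g x, τ (α g x) = τ x) (H : Subgroup G) (hH : Coamenable H)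
    (γ : L →* (A ≃⋆ₐ[ℂ] A)) (hγ : Embeddable γ τ) (ρ : H →* L)
    (h : ∀ g : H, ∃ v ∈ unitary A, ∀ x, α g x = v * γ (ρ g) x * star v) : Embeddable α τ ↔ Hyperlinear G := by
  have h01 : (1 : A) ≠ 0 := by
    intro h
    rw [h, map_zero] at hτ
    exact zero_ne_one hτ
  rw [embeddable_iff hτ h01]
  exact ⟨fun h2 => h2.1, fun h2 => ⟨h2, cov_of_restrict hτ h01 hZ ρ hα hH h (cov_of_emb hγ)⟩⟩

end Pool.Agent.Results.MP_47effe_an.OuterClass
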